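import Pool.Agent.R912.CZ.Two

/-!
# Colmez's product formula: conjugate generators
-/

set_option autoImplicit false
set_option linter.unusedSectionVars false

open Finset Pool.Agent.R484.Colmez

namespace Pool.Agent.R912.CZ

open Classical

variable {G : Type} [Group G] [Fintype G] {c : G} {D : (G → ℚ) →ₗ[ℚ] ℝ}

/-- `v`, which normalises `C`, defines an automorphism of the field `E` fixed by `C`; it conjugates
the restriction of `x` to `E` to the restriction of `y` to `E`. -/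
def ConjOn (C : Subgroup G) (x y : G) : Prop :=
  ∃ v : G, (∀ u : G, u ∈ C ↔ v * u * v⁻¹ ∈ C) ∧ y⁻¹ * (v * x * v⁻¹) ∈ C

lemma B_conjOn {C : Subgroup G} {x y : G} (h : ConjOn C x y) : B C y = B C x := by
  obtain ⟨v, hv, hy⟩ := h
  ext g
  rw [B, B]
  refine Fintype.sum_equiv (Equiv.mulRight v) _ _ fun w => ind_congr ?_
  simp only [Equiv.coe_mulRight]
  have h1 : y⁻¹ * (w⁻¹ * g * w) = (y⁻¹ * (v * x * v⁻¹)) * (v * (x⁻¹ * ((w * v)⁻¹ * g * (w * v))) *
      v⁻¹) := by group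
  rw [h1, Subgroup.mul_mem_cancel_left _ hy, ← hv]

lemma conjOn_inv {C : Subgroup G} {x y : G} (hy : ∀ u ∈ C, u * y = y * u) (h : ConjOn C x y) :
    ConjOn C x⁻¹ y⁻¹ := by
  obtain ⟨v, hv, hxy⟩ := h
  refine ⟨v, hv, ?_⟩
  set u := y⁻¹ * (v * x * v⁻¹) with hu
  have h1 : y⁻¹⁻¹ * (v * x⁻¹ * v⁻¹) = y * u⁻¹ * y⁻¹ := by
    rw [hu]
    group
  rw [h1, ← hy _ (C.inv_mem hxy), mul_inv_cancel_right]
  exact C.inv_mem hxy

/-- `x ^ j` generates the same group as `x` modulo `C`. -/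
def IsGen (C : Subgroup G) (x : G) (j : ℕ) : Prop := ∃ k : ℕ, x⁻¹ * (x ^ j) ^ k ∈ C

lemma ind_nonneg (p : Prop) : 0 ≤ ind p := by
  rw [ind]
  split_ifs <;> norm_num

lemma ind_le {p q : Prop} (h : p → q) : ind p ≤ ind q := by
  by_cases hp : p
  · rw [ind_pos hp, ind_pos (h hp)]
  · rw [ind_neg hp]
    exact ind_nonneg q

lemma B_nonneg (C : Subgroup G) (x g : G) : 0 ≤ B C x g :=
  sum_nonneg fun _ _ => ind_nonneg _

lemma inv_mul_pow (y g : G) (j : ℕ) : y⁻¹ * g ^ j * y = (y⁻¹ * g * y) ^ j := by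
  have h1 : y⁻¹ * g * y = y⁻¹ * g * y⁻¹⁻¹ := by rw [inv_inv]
  rw [h1, conj_pow, inv_inv]

lemma B_le {C : Subgroup G} {x : G} (hcom : ∀ u ∈ C, u * x = x * u) (h : G) (j : ℕ) :
    B C x h ≤ B C (x ^ j) (h ^ j) := by
  rw [B, B]
  refine sum_le_sum fun y _ => ind_le fun h1 => ?_
  rw [inv_mul_pow]
  set u := x⁻¹ * (y⁻¹ * h * y) with hu
  have h2 : y⁻¹ * h * y = x * u := by rw [hu]; group
  have h3 : Commute x u := (hcom u h1).symm
  rw [h2, h3.mul_pow, inv_mul_cancel_left]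
  exact C.pow_mem h1 j

lemma gen_of_ne {C : Subgroup G} {x : G} (hcom : ∀ u ∈ C, u * x = x * u) {h : G} {j : ℕ}
    (hj : j.Coprime (orderOf h)) (hB : B C x h ≠ 0) : IsGen C x j := by
  have h0 : ∃ y : G, x⁻¹ * (y⁻¹ * h * y) ∈ C := by
    by_contra h1
    push Not at h1
    apply hB
    rw [B]
    exact sum_eq_zero fun y _ => ind_neg (h1 y)
  obtain ⟨y, hy⟩ := h0
  obtain ⟨k, hk⟩ : ∃ k : ℕ, h ^ (j * k) = h := by
    obtain ⟨k, hk⟩ := exists_pow_eq_self_of_coprime hj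
    exact ⟨k, by rw [pow_mul]; exact hk⟩
  refine ⟨k, ?_⟩
  set u := x⁻¹ * (y⁻¹ * h * y) with hu
  have h2 : y⁻¹ * h * y = x * u := by rw [hu]; group
  have h3 : Commute x u := (hcom u hy).symm
  have h4 : (x * u) ^ (j * k) = x * u := by
    rw [← h2, ← inv_mul_pow, hk]
  rw [h3.mul_pow] at h4
  have h5 : x ^ (j * k) = x * u * (u ^ (j * k))⁻¹ := eq_mul_inv_of_mul_eq h4
  rw [← pow_mul, h5, mul_assoc, inv_mul_cancel_left]
  exact C.mul_mem hy (C.inv_mem (C.pow_mem hy _))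

lemma comm_pow {C : Subgroup G} {x : G} (hcom : ∀ u ∈ C, u * x = x * u) (j : ℕ) :
    ∀ u ∈ C, u * x ^ j = x ^ j * u := by
  intro u hu
  have : Commute u x := hcom u hu
  exact (this.pow_right j).eq

lemma comm_inv {C : Subgroup G} {x : G} (hcom : ∀ u ∈ C, u * x = x * u) :
    ∀ u ∈ C, u * x⁻¹ = x⁻¹ * u := by
  intro u hu
  have : Commute u x := hcom u hu
  exact this.inv_right.eq

lemma gen_inv {C : Subgroup G} {x : G} (hcom : ∀ u ∈ C, u * x = x * u) {j : ℕ}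
    (h : IsGen C x⁻¹ j) : IsGen C x j := by
  obtain ⟨k, hk⟩ := h
  refine ⟨k, ?_⟩
  have h1 := C.inv_mem hk
  rw [inv_inv, inv_pow, inv_pow, mul_inv_rev, inv_inv] at h1
  have h2 := hcom _ h1
  have h3 : x⁻¹ * (x ^ j) ^ k = (x ^ j) ^ k * x⁻¹ := by
    rw [← pow_mul, ← zpow_natCast, ← zpow_neg_one, ← zpow_add, ← zpow_add, add_comm]
  rw [h3]
  exact h1

/-- All generators are conjugate. -/
lemma SS_gen (hJ : ∀ C : Subgroup G, D (odd c (J C)) = 0) {C : Subgroup G} {x : G}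
    (hcom : ∀ u ∈ C, u * x = x * u) (hx : ∀ j, IsGen C x j → ConjOn C x (x ^ j)) :
    SS D c C x = 0 := by
  have key : ∀ g h : G, Subgroup.zpowers g = Subgroup.zpowers h → B C x h ≤ B C x g := by
    intro g h hgh
    obtain ⟨j, hj, rfl⟩ := exists_pow hgh.symm
    by_cases h0 : B C x h = 0
    · rw [h0]
      exact B_nonneg _ _ _
    · rw [← B_conjOn (hx j (gen_of_ne hcom hj h0))]
      exact B_le hcom h j |>.trans_eq' (by rw [B_conjOn (hx j (gen_of_ne hcom hj h0))])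
  rw [SS]
  refine D_odd_rational hJ (fun g v => B_conj C x g v) fun g h hgh => ?_
  exact le_antisymm (key h g hgh.symm) (key g h hgh)

/-- All generators are conjugate to `x` or to `x⁻¹`. -/
lemma SS_gen_sym (hJ : ∀ C : Subgroup G, D (odd c (J C)) = 0) {C : Subgroup G} {x : G}
    (hcom : ∀ u ∈ C, u * x = x * u)
    (hx : ∀ j, IsGen C x j → ConjOn C x (x ^ j) ∨ ConjOn C x⁻¹ (x ^ j)) :
    SS D c C x + SS D c C x⁻¹ = 0 := by
  have hR : ∀ j, IsGen C x j → ∀ g, B C (x ^ j) g + B C (x ^ j)⁻¹ g = B C x g + B C x⁻¹ g := by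
    intro j hj g
    rcases hx j hj with h | h
    · rw [B_conjOn h, B_conjOn (conjOn_inv (comm_pow hcom j) h)]
    · have h1 := conjOn_inv (comm_pow hcom j) h
      rw [inv_inv] at h1
      rw [B_conjOn h, B_conjOn h1, add_comm]
  have key : ∀ g h : G, Subgroup.zpowers g = Subgroup.zpowers h →
      B C x h + B C x⁻¹ h ≤ B C x g + B C x⁻¹ g := by
    intro g h hgh
    obtain ⟨j, hj, rfl⟩ := exists_pow hgh.symm
    by_cases h0 : IsGen C x j
    · rw [← hR j h0 (h ^ j)]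
      have h1 := B_le (comm_inv hcom) h j
      rw [inv_pow] at h1
      exact add_le_add (B_le hcom h j) h1
    · have h1 : B C x h = 0 := by
        by_contra h2
        exact h0 (gen_of_ne hcom hj h2)
      have h2 : B C x⁻¹ h = 0 := by
        by_contra h3
        exact h0 (gen_inv hcom (gen_of_ne (comm_inv hcom) hj h3))
      rw [h1, h2, add_zero]
      exact add_nonneg (B_nonneg _ _ _) (B_nonneg _ _ _)
  have h3 : D (odd c (B C x + B C x⁻¹)) = 0 := by
    refine D_odd_rational hJ (fun g v => ?_) fun g h hgh => ?_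
    · rw [Pi.add_apply, Pi.add_apply, B_conj, B_conj]
    · rw [Pi.add_apply, Pi.add_apply]
      exact le_antisymm (key h g hgh.symm) (key g h hgh)
  rw [SS, SS, ← map_add, ← map_add]
  exact h3

/-- Elements conjugate to their negative. -/
lemma SS_neg (hc : ∀ g : G, g * c = c * g) (hcc : c * c = 1) {C : Subgroup G} {x : G}
    (h : ConjOn C x (c * x)) : SS D c C x = 0 := by
  have h1 := SS_c (D := D) hc hcc C x
  rw [SS, B_conjOn h] at h1
  rw [SS] at h1 ⊢
  linarith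

lemma SS_neg_inv (hc : ∀ g : G, g * c = c * g) (hcc : c * c = 1) {C : Subgroup G} {x : G}
    (h : ConjOn C x (c * x⁻¹)) : SS D c C x + SS D c C x⁻¹ = 0 := by
  have h1 := SS_c (D := D) hc hcc C x⁻¹
  rw [SS, B_conjOn h] at h1
  rw [SS] at h1
  rw [SS, SS]
  linarith

end Pool.Agent.R912.CZ
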