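import Pool.Agent.R484.CPc

/-!
# Colmez's product formula: induction to cyclic extensions of totally real fields
-/

set_option autoImplicit false
set_option linter.unusedSectionVars false

open Finset Pool.Agent.R484.Colmez

namespace Pool.Agent.R912.CZ

open Classical

variable {G : Type} [Group G] [Fintype G] {c : G}

/-- `G = Gal(K/ℚ)`, `c` complex conjugation, `E` and `F` the subfields of `K` fixed by `C` and by the
subgroup generated by `x` and `c`: `F` is a totally real field, `E` is a CM field which contains `F`,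
the degree of `K` over `E` is a power of `2`, and `E / F` is cyclic of degree at least `d`, its Galois
group being generated by the restriction of `x`. -/
def IsCyclicCM (c : G) (C : Subgroup G) (x : G) (d : ℕ) : Prop :=
  c ∉ C ∧ C ≤ Subgroup.closure {x, c} ∧ (∀ u ∈ C, ∃ a : ℕ, u ^ 2 ^ a = 1) ∧
    (∃ k : ℕ, x ^ k * c ∈ C) ∧ ∀ n : ℕ, 0 < n → x ^ n ∈ C → d ≤ n

lemma comm_closure (hc : ∀ g : G, g * c = c * g) {x u : G}
    (hu : u ∈ Subgroup.closure ({x, c} : Set G)) : u * x = x * u := by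
  have h1 : Subgroup.closure ({x, c} : Set G) ≤ Subgroup.centralizer {x} := by
    rw [Subgroup.closure_le]
    rintro w (rfl | hw)
    · exact Subgroup.mem_centralizer_singleton_iff.2 rfl
    · rw [Set.mem_singleton_iff] at hw
      subst hw
      exact Subgroup.mem_centralizer_singleton_iff.2 (hc x).symm
  exact Subgroup.mem_centralizer_singleton_iff.1 (h1 hu)

lemma exists_ext (C : Subgroup G) {z : G} (hz : z * z ∈ C) (hzn : ∀ u ∈ C, u * z = z * u) :
    ∃ C1 : Subgroup G, ∀ w, w ∈ C1 ↔ w ∈ C ∨ z⁻¹ * w ∈ C := by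
  have hzi : ∀ u ∈ C, u * z⁻¹ = z⁻¹ * u := by
    intro u hu
    have := hzn u hu
    rw [eq_inv_mul_iff_mul_eq, ← mul_assoc, ← this, mul_assoc, mul_inv_cancel, mul_one]
  refine ⟨{ carrier := {w | w ∈ C ∨ z⁻¹ * w ∈ C}, mul_mem' := ?_, one_mem' := Or.inl C.one_mem,
            inv_mem' := ?_ }, fun w => Iff.rfl⟩
  · rintro a b (ha | ha) (hb | hb)
    · exact Or.inl (C.mul_mem ha hb)
    · right
      rw [← mul_assoc, ← hzi a ha, mul_assoc]
      exact C.mul_mem ha hb
    · right
      rw [← mul_assoc]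
      exact C.mul_mem ha hb
    · left
      have h1 : a * b = (z * z) * ((z⁻¹ * a) * (z⁻¹ * b)) := by
        have h2 := hzi _ ha
        have h3 : (z⁻¹ * a) * (z⁻¹ * b) = ((z⁻¹ * a) * z⁻¹) * b := by group
        rw [h3, h2]
        group
      rw [h1]
      exact C.mul_mem hz (C.mul_mem ha hb)
  · rintro a (ha | ha)
    · exact Or.inl (C.inv_mem ha)
    · right
      have h1 := hzi _ (C.inv_mem ha)
      have h2 : z⁻¹ * a⁻¹ = (z⁻¹ * (z⁻¹ * a)⁻¹) * z⁻¹ := by group
      have h3 : z⁻¹ * a⁻¹ = (z⁻¹ * a)⁻¹ * (z * z)⁻¹ := by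
        rw [h2, ← h1]
        group
      change z⁻¹ * a⁻¹ ∈ C
      rw [h3]
      exact C.mul_mem (C.inv_mem ha) (C.inv_mem hz)

lemma closure_c (hcc : c * c = 1) (x : G) :
    Subgroup.closure ({x, c} : Set G) ≤ Subgroup.closure {c * x, c} := by
  rw [Subgroup.closure_le]
  have h1 : c ∈ Subgroup.closure ({c * x, c} : Set G) := Subgroup.subset_closure (by simp)
  have h2 : c * x ∈ Subgroup.closure ({c * x, c} : Set G) := Subgroup.subset_closure (by simp)
  rintro w (rfl | hw)
  · have h3 : c * (c * w) = w := by rw [← mul_assoc, hcc, one_mul]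
    have h4 := Subgroup.mul_mem _ h1 h2
    rwa [h3] at h4
  · rw [Set.mem_singleton_iff] at hw
    subst hw
    exact h1

lemma c_pow_odd (hcc : c * c = 1) {n : ℕ} (hn : Odd n) : c ^ n = c := by
  obtain ⟨m, rfl⟩ := hn
  rw [pow_succ, pow_mul, pow_two, hcc, one_pow, one_mul]

/-- The induction. -/
lemma induct (hc : ∀ g : G, g * c = c * g) (hcc : c * c = 1) (S : Subgroup G → G → ℝ)
    (hS1 : ∀ C x, S C (c * x) = -S C x)
    (hS2 : ∀ (C C1 C2 : Subgroup G) (z x : G), z ∉ C → c * z ∉ C →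
      (∀ w, w ∈ C1 ↔ w ∈ C ∨ z⁻¹ * w ∈ C) → (∀ w, w ∈ C2 ↔ w ∈ C ∨ (c * z)⁻¹ * w ∈ C) →
      S C1 x + S C2 x = 2 * S C x)
    (hS3 : ∀ C x, IsCyclicCM c C x 1 → S C x = 0) (hc1 : c ≠ 1) (x : G) : S ⊥ x = 0 := by
  have two : ∀ (C C1 : Subgroup G) (z : G), z * z ∈ C → (∀ u ∈ C, u * z = z * u) →
      (∀ u ∈ C, ∃ a : ℕ, u ^ 2 ^ a = 1) → (∀ w, w ∈ C1 ↔ w ∈ C ∨ z⁻¹ * w ∈ C) →
      ∀ w ∈ C1, ∃ a : ℕ, w ^ 2 ^ a = 1 := by
    intro C C1 z hz hzn h2 hC1 w hw
    have h3 : w ^ 2 ∈ C := by
      rcases (hC1 w).1 hw with h | h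
      · exact C.pow_mem h 2
      · set u := z⁻¹ * w with hu
        have h4 : w = z * u := by rw [hu, mul_inv_cancel_left]
        have h5 : Commute z u := (hzn u h).symm
        rw [h4, h5.mul_pow, pow_two z]
        exact C.mul_mem hz (C.pow_mem h 2)
    obtain ⟨a, ha⟩ := h2 _ h3
    refine ⟨a + 1, ?_⟩
    rw [pow_succ, mul_comm, pow_mul]
    exact ha
  have key : ∀ C : Subgroup G, c ∉ C → C ≤ Subgroup.closure {x, c} →
      (∀ u ∈ C, ∃ a : ℕ, u ^ 2 ^ a = 1) → S C x = 0 := by
    intro C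
    induction C using WellFoundedGT.induction with
    | ind C ih =>
    intro hC hCx hC2
    by_cases hk : ∃ k : ℕ, x ^ k * c ∈ C
    · exact hS3 C x ⟨hC, hCx, hC2, hk, fun n hn _ => hn⟩
    · push Not at hk
      have hex : ∃ n, 0 < n ∧ x ^ n ∈ C :=
        ⟨orderOf x, orderOf_pos x, by rw [pow_orderOf_eq_one]; exact C.one_mem⟩
      obtain ⟨hn0, hn⟩ := Nat.find_spec hex
      have hmin : ∀ m, 0 < m → x ^ m ∈ C → Nat.find hex ≤ m :=
        fun m h1 h2 => Nat.find_min' hex ⟨h1, h2⟩
      generalize Nat.find hex = n at hn0 hn hmin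
      rcases Nat.even_or_odd n with ⟨m, hm⟩ | hodd
      · have hm0 : 0 < m := by omega
        set z := x ^ m with hz
        have hzC : z ∉ C := fun h => by have := hmin m hm0 h; omega
        have hzz : z * z ∈ C := by rw [hz, ← pow_add, ← hm]; exact hn
        have hczC : c * z ∉ C := by
          intro h
          apply hk m
          rw [hc]
          exact h
        have hcz2 : (c * z) * (c * z) ∈ C := by
          have h1 : (c * z) * (c * z) = z * z := by
            have h2 : (c * z) * (c * z) = c * (z * c) * z := by group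
            rw [h2, hc z, ← mul_assoc c c z, hcc, one_mul]
          rw [h1]
          exact hzz
        have hcom : ∀ u ∈ C, u * z = z * u := by
          intro u hu
          have h1 : Commute u x := comm_closure hc (hCx hu)
          exact (h1.pow_right m).eq
        have hcom' : ∀ u ∈ C, u * (c * z) = (c * z) * u := by
          intro u hu
          rw [← mul_assoc, hc u, mul_assoc, hcom u hu, mul_assoc]
        have hxcl : x ∈ Subgroup.closure ({x, c} : Set G) := Subgroup.subset_closure (by simp)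
        have hccl : c ∈ Subgroup.closure ({x, c} : Set G) := Subgroup.subset_closure (by simp)
        have hzcl : z ∈ Subgroup.closure ({x, c} : Set G) := Subgroup.pow_mem _ hxcl m
        obtain ⟨C1, hC1⟩ := exists_ext C hzz hcom
        obtain ⟨C2, hC2'⟩ := exists_ext C hcz2 hcom'
        have h1 : S C1 x = 0 := by
          refine ih C1 ?_ ?_ ?_ (two C C1 z hzz hcom hC2 hC1)
          · refine lt_of_le_of_ne (fun w hw => (hC1 w).2 (Or.inl hw)) ?_
            rintro rfl
            exact hzC ((hC1 z).2 (Or.inr (by rw [inv_mul_cancel]; exact Subgroup.one_mem _)))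
          · rw [hC1]
            rintro (h | h)
            · exact hC h
            · have h2 : c * z ∈ C := by
                have h3 : c * z = (z * z) * (z⁻¹ * c) := by
                  rw [← hc z]
                  group
                rw [h3]
                exact C.mul_mem hzz h
              exact hczC h2
          · intro w hw
            rcases (hC1 w).1 hw with h | h
            · exact hCx h
            · have h2 := Subgroup.mul_mem _ hzcl (hCx h)
              rwa [mul_inv_cancel_left] at h2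
        have h2 : S C2 x = 0 := by
          refine ih C2 ?_ ?_ ?_ (two C C2 (c * z) hcz2 hcom' hC2 hC2')
          · refine lt_of_le_of_ne (fun w hw => (hC2' w).2 (Or.inl hw)) ?_
            rintro rfl
            exact hczC ((hC2' (c * z)).2 (Or.inr (by rw [inv_mul_cancel]; exact Subgroup.one_mem _)))
          · rw [hC2']
            rintro (h | h)
            · exact hC h
            · apply hzC
              have h3 : (c * z)⁻¹ * c = z⁻¹ := by
                rw [mul_inv_rev, mul_assoc, inv_mul_cancel, mul_one]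
              rw [h3] at h
              exact C.inv_mem_iff.1 h
          · intro w hw
            rcases (hC2' w).1 hw with h | h
            · exact hCx h
            · have h2 := Subgroup.mul_mem _ (Subgroup.mul_mem _ hccl hzcl) (hCx h)
              rwa [mul_inv_cancel_left] at h2
        have h3 := hS2 C C1 C2 z x hzC hczC hC1 hC2'
        rw [h1, h2] at h3
        linarith
      · have h1 := hS3 C (c * x) ⟨hC, hCx.trans (closure_c hcc x), hC2, ⟨n, ?_⟩,
          fun n hn _ => hn⟩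
        · rw [hS1] at h1
          linarith
        · have h2 : Commute c x := (hc x).symm
          rw [h2.mul_pow, c_pow_odd hcc hodd, hc, ← mul_assoc, hcc, one_mul]
          exact hn
  exact key ⊥ (by rw [Subgroup.mem_bot]; exact hc1) bot_le fun u hu =>
    ⟨0, by rw [Subgroup.mem_bot] at hu; rw [hu, one_pow]⟩

/-! ### The functions -/

/-- The number of the `y` with `y⁻¹ g y ∈ x C`. -/
noncomputable def B (C : Subgroup G) (x : G) : G → ℚ :=
  fun g => ∑ y : G, ind (x⁻¹ * (y⁻¹ * g * y) ∈ C)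

lemma B_one (C : Subgroup G) : B C 1 = J C := by
  ext g
  rw [B, J]
  refine sum_congr rfl fun y _ => ?_
  rw [inv_one, one_mul]

lemma B_conj (C : Subgroup G) (x g v : G) : B C x (v * g * v⁻¹) = B C x g := by
  rw [B, B]
  refine Fintype.sum_equiv (Equiv.mulLeft v⁻¹) _ _ fun h => ?_
  simp only [Equiv.coe_mulLeft, mul_inv_rev, inv_inv, mul_assoc]

lemma c_inv (hcc : c * c = 1) : c⁻¹ = c := inv_eq_of_mul_eq_one_left hcc

lemma B_c (hc : ∀ g : G, g * c = c * g) (hcc : c * c = 1) (C : Subgroup G) (x g : G) :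
    B C (c * x) g = B C x (c * g) := by
  rw [B, B]
  refine sum_congr rfl fun y _ => ind_congr ?_
  have h1 : (c * x)⁻¹ * (y⁻¹ * g * y) = x⁻¹ * (y⁻¹ * (c * g) * y) := by
    have h2 : y⁻¹ * (c * g) * y = c * (y⁻¹ * g * y) := by
      rw [← mul_assoc, hc y⁻¹]
      simp only [mul_assoc]
    rw [h2, mul_inv_rev, c_inv hcc, mul_assoc]
  rw [h1]

lemma odd_B_c (hc : ∀ g : G, g * c = c * g) (hcc : c * c = 1) (C : Subgroup G) (x : G) :
    odd c (B C (c * x)) = -odd c (B C x) := by
  ext g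
  rw [Pi.neg_apply, odd_apply, odd_apply, B_c hc hcc, B_c hc hcc, ← mul_assoc, hcc, one_mul]
  ring

lemma B_add {C C1 : Subgroup G} {z : G} (hz : z ∉ C)
    (hC1 : ∀ w, w ∈ C1 ↔ w ∈ C ∨ z⁻¹ * w ∈ C) (x : G) : B C1 x = B C x + B C (x * z) := by
  ext g
  rw [Pi.add_apply, B, B, B, ← sum_add_distrib]
  refine sum_congr rfl fun y _ => ?_
  set w := x⁻¹ * (y⁻¹ * g * y) with hw
  have h1 : (x * z)⁻¹ * (y⁻¹ * g * y) = z⁻¹ * w := by
    rw [mul_inv_rev, mul_assoc]
  rw [h1]
  by_cases h2 : w ∈ C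
  · have h3 : z⁻¹ * w ∉ C := by
      rw [Subgroup.mul_mem_cancel_right _ h2, inv_mem_iff]
      exact hz
    rw [ind_pos ((hC1 w).2 (Or.inl h2)), ind_pos h2, ind_neg h3, add_zero]
  · by_cases h3 : z⁻¹ * w ∈ C
    · rw [ind_pos ((hC1 w).2 (Or.inr h3)), ind_neg h2, ind_pos h3, zero_add]
    · rw [ind_neg (fun h => ((hC1 w).1 h).elim h2 h3), ind_neg h2, ind_neg h3, zero_add]

variable {D : (G → ℚ) →ₗ[ℚ] ℝ}

/-- The value of the functional. -/
noncomputable def SS (D : (G → ℚ) →ₗ[ℚ] ℝ) (c : G) (C : Subgroup G) (x : G) : ℝ :=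
  D (odd c (B C x))

lemma SS_c (hc : ∀ g : G, g * c = c * g) (hcc : c * c = 1) (C : Subgroup G) (x : G) :
    SS D c C (c * x) = -SS D c C x := by
  rw [SS, SS, odd_B_c hc hcc, map_neg]

lemma SS_add (hc : ∀ g : G, g * c = c * g) (hcc : c * c = 1) (C C1 C2 : Subgroup G) (z x : G)
    (hz : z ∉ C) (hcz : c * z ∉ C) (hC1 : ∀ w, w ∈ C1 ↔ w ∈ C ∨ z⁻¹ * w ∈ C)
    (hC2 : ∀ w, w ∈ C2 ↔ w ∈ C ∨ (c * z)⁻¹ * w ∈ C) :
    SS D c C1 x + SS D c C2 x = 2 * SS D c C x := by
  have h1 : x * (c * z) = c * (x * z) := by rw [← mul_assoc, hc x, mul_assoc]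
  have h2 : SS D c C1 x = SS D c C x + SS D c C (x * z) := by
    rw [SS, B_add hz hC1, map_add, map_add]
    rfl
  have h3 : SS D c C2 x = SS D c C x + SS D c C (x * (c * z)) := by
    rw [SS, B_add hcz hC2, map_add, map_add]
    rfl
  rw [h2, h3, h1, SS_c hc hcc]
  ring

lemma expand {f : G → ℚ} (hf : ∀ g x : G, f (x * g * x⁻¹) = f g) :
    (Fintype.card G : ℚ) • f = ∑ x, f x • B ⊥ x := by
  ext g
  rw [Finset.sum_apply, Pi.smul_apply, smul_eq_mul]
  simp only [Pi.smul_apply, smul_eq_mul, B, mul_sum]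
  rw [sum_comm]
  have h2 : ∀ y : G, ∑ x : G, f x * ind (x⁻¹ * (y⁻¹ * g * y) ∈ (⊥ : Subgroup G)) = f g := by
    intro y
    rw [sum_eq_single (y⁻¹ * g * y), inv_mul_cancel, ind_pos (Subgroup.one_mem _), mul_one]
    · have := hf g y⁻¹
      rwa [inv_inv] at this
    · intro x _ hx
      rw [ind_neg, mul_zero]
      rw [Subgroup.mem_bot, inv_mul_eq_one]
      exact hx
    · exact fun h => absurd (mem_univ _) h
  rw [sum_congr rfl fun y _ => h2 y, sum_const, card_univ, nsmul_eq_mul]

lemma card_ne : (Fintype.card G : ℚ) ≠ 0 := by exact_mod_cast Fintype.card_ne_zero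

lemma D_zero (h1 : D 1 = 0) (hS : ∀ x, SS D c ⊥ x = 0) {f : G → ℚ}
    (hf : ∀ g x : G, f (x * g * x⁻¹) = f g) {s : ℚ} (hs : ∀ g, f g + f (c * g) = s) :
    D f = 0 := by
  have h2 : (Fintype.card G : ℚ) • D (odd c f) = 0 := by
    rw [← map_smul, ← map_smul, expand hf, map_sum, map_sum]
    refine sum_eq_zero fun x _ => ?_
    rw [map_smul, map_smul]
    have := hS x
    rw [SS] at this
    rw [this, smul_zero]
  have h3 := (smul_eq_zero.1 h2).resolve_left card_ne
  have h4 : f = (s / 2) • (1 : G → ℚ) + (1 / 2 : ℚ) • odd c f := by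
    ext g
    have := hs g
    simp only [Pi.add_apply, Pi.smul_apply, Pi.one_apply, smul_eq_mul, odd_apply]
    linarith
  rw [h4, map_add, map_smul, map_smul, h1, h3]
  simp

lemma D_zero_sym (h1 : D 1 = 0) (hS : ∀ x, SS D c ⊥ x + SS D c ⊥ x⁻¹ = 0) {f : G → ℚ}
    (hf : ∀ g x : G, f (x * g * x⁻¹) = f g) (hfi : ∀ g, f g⁻¹ = f g) {s : ℚ}
    (hs : ∀ g, f g + f (c * g) = s) : D f = 0 := by
  have h2 : (Fintype.card G : ℚ) • D (odd c f) = 0 := by
    have h5 : (Fintype.card G : ℚ) • D (odd c f) = ∑ x, f x • SS D c ⊥ x := by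
      rw [← map_smul, ← map_smul, expand hf, map_sum, map_sum]
      refine sum_congr rfl fun x _ => ?_
      rw [map_smul, map_smul]
      rfl
    have h6 : ∑ x, f x • SS D c ⊥ x = ∑ x, f x • SS D c ⊥ x⁻¹ := by
      refine Fintype.sum_equiv (Equiv.inv G) _ _ fun x => ?_
      rw [Equiv.inv_apply, hfi, inv_inv]
    have h7 : ∑ x, f x • SS D c ⊥ x + ∑ x, f x • SS D c ⊥ x⁻¹ = 0 := by
      rw [← sum_add_distrib]
      refine sum_eq_zero fun x _ => ?_
      rw [← smul_add, hS, smul_zero]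
    rw [h5]
    rw [← h6] at h7
    linarith
  have h3 := (smul_eq_zero.1 h2).resolve_left card_ne
  have h4 : f = (s / 2) • (1 : G → ℚ) + (1 / 2 : ℚ) • odd c f := by
    ext g
    have := hs g
    simp only [Pi.add_apply, Pi.smul_apply, Pi.one_apply, smul_eq_mul, odd_apply]
    linarith
  rw [h4, map_add, map_smul, map_smul, h1, h3]
  simp

end Pool.Agent.R912.CZ
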