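import Pool.Agent.R912.CZ.Conj

/-!
# Colmez's product formula: reduction to cyclic extensions of totally real fields
-/

set_option autoImplicit false
set_option linter.unusedSectionVars false

open Finset Pool.Agent.R484.Colmez

namespace Pool.Agent.R912.CZ

open Classical

variable {G : Type} [Group G] [Fintype G] {c : G}

/-- Exchange the embeddings `y` and `c y` in a CM type. -/
noncomputable def swap {X : Type} [MulAction G X] (c : G) (y : X) (Φ : Finset X) : Finset X :=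
  symmDiff Φ {y, c • y}

/-- The difference of the two sides of the product formula for `ψ` and `Φ`. -/
noncomputable def dif (T : ColmezHeights G c) {C : Subgroup G} (ψ : G ⧸ C) (Φ : Finset (G ⧸ C)) :
    ℝ :=
  T.ht C ψ Φ - T.Z (a0 ψ Φ)

/-- The sum of these differences over the `ψ` in `Φ`: the difference of the two sides of Colmez's
formula for the Faltings height of the abelian varieties of CM type `Φ`. -/
noncomputable def fal (T : ColmezHeights G c) {C : Subgroup G} (Φ : Finset (G ⧸ C)) : ℝ :=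
  ∑ ψ ∈ Φ, (T.ht C ψ Φ - T.Z (a0 ψ Φ))

/-- The cyclic extensions `E / F` for which Colmez's product formula is not implied by the known
theorems: its degree is at least `4`, `E` is not abelian over `ℚ`, no automorphism of `E` conjugates
the generator `x` to `c x`, and `x` is not conjugate to all generators. -/
def Essential (c : G) (C : Subgroup G) (x : G) : Prop :=
  IsCyclicCM c C x 4 ∧ ¬ commutator G ≤ C ∧ ¬ ConjOn C x (c * x) ∧
    ∃ j : ℕ, IsGen C x j ∧ ¬ ConjOn C x (x ^ j)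

/-- The same for the formula for Faltings heights: the degree is at least `8`, `E` is not abelian
over `ℚ`, no automorphism of `E` conjugates `x` to `c x` or to `c x⁻¹`, and some generator is
conjugate neither to `x` nor to `x⁻¹`. -/
def EssentialSym (c : G) (C : Subgroup G) (x : G) : Prop :=
  IsCyclicCM c C x 8 ∧ ¬ commutator G ≤ C ∧ ¬ ConjOn C x (c * x) ∧ ¬ ConjOn C x (c * x⁻¹) ∧
    ∃ j : ℕ, IsGen C x j ∧ ¬ ConjOn C x (x ^ j) ∧ ¬ ConjOn C x⁻¹ (x ^ j)

section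

variable {D : (G → ℚ) →ₗ[ℚ] ℝ}

lemma sg_ne {X : Type} (y : X) (Φ : Finset X) : sg y Φ ≠ 0 := by
  rw [sg]
  split_ifs <;> norm_num

lemma c_ne {C : Subgroup G} {Φ : Finset (G ⧸ C)} (hΦ : IsCMType c Φ) : c ≠ 1 := by
  rintro rfl
  exact hΦ.free ((1 : G) : G ⧸ C) (one_smul _ _)

/-- The first difference of the functional. -/
lemma D_first (hc : ∀ g : G, g * c = c * g) (hcc : c * c = 1) {C : Subgroup G}
    {Φ : Finset (G ⧸ C)} (hΦ : IsCMType c Φ) (x : G) :
    D (a0 ((1 : G) : G ⧸ C) Φ) - D (a0 ((1 : G) : G ⧸ C) (swap c (x : G ⧸ C) Φ)) =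
      (sg (x : G ⧸ C) Φ / Fintype.card G : ℚ) • SS D c C x := by
  rw [SS, ← map_smul, ← map_sub]
  congr 1
  ext g
  exact first C hc hcc hΦ x g

/-- The second difference of the functional. -/
lemma D_second (hc : ∀ g : G, g * c = c * g) (hcc : c * c = 1) {C : Subgroup G}
    {Φ : Finset (G ⧸ C)} (hΦ : IsCMType c Φ) {x : G} (hcom : ∀ u ∈ C, u * x = x * u)
    (h1 : x ∉ C) (h2 : c * x ∉ C) :
    (∑ ψ ∈ Φ, D (a0 ψ Φ)) -
      (∑ ψ ∈ swap c ((1 : G) : G ⧸ C) Φ, D (a0 ψ (swap c ((1 : G) : G ⧸ C) Φ))) -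
      (∑ ψ ∈ swap c (x : G ⧸ C) Φ, D (a0 ψ (swap c (x : G ⧸ C) Φ))) +
      (∑ ψ ∈ swap c ((1 : G) : G ⧸ C) (swap c (x : G ⧸ C) Φ),
        D (a0 ψ (swap c ((1 : G) : G ⧸ C) (swap c (x : G ⧸ C) Φ)))) =
    (2 * (sg ((1 : G) : G ⧸ C) Φ * sg (x : G ⧸ C) Φ) / Fintype.card G : ℚ) •
      (SS D c C x + SS D c C x⁻¹) := by
  have e1 : ((1 : G) : G ⧸ C) ≠ (x : G ⧸ C) := by
    intro h
    rw [QuotientGroup.eq, inv_one, one_mul] at h
    exact h1 h
  have e2 : ((1 : G) : G ⧸ C) ≠ c • (x : G ⧸ C) := by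
    intro h
    rw [MulAction.Quotient.smul_mk, QuotientGroup.eq, inv_one, one_mul, smul_eq_mul] at h
    exact h2 h
  rw [SS, SS, ← map_add, ← map_smul]
  simp only [← map_sum]
  rw [← map_sub, ← map_sub, ← map_add]
  congr 1
  ext g
  have h3 := second (Φ := Φ) hc hcc hΦ e1 e2 g
  rw [sum_quot_eta C hc hcc, sum_quot_eta' C hc hcc hcom] at h3
  exact h3

end

section Main

variable (hc : ∀ g : G, g * c = c * g) (hcc : c * c = 1) (T : ColmezHeights G c)

lemma averages {D : (G → ℚ) →ₗ[ℚ] ℝ}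
    (h2 : ∀ (C : Subgroup G) (ψ : G ⧸ C) (Φ : Finset (G ⧸ C)), IsCMType c Φ →
      D (a0 ψ Φ) = T.ht C ψ Φ - T.Z (a0 ψ Φ)) :
    ∀ C : Subgroup G, c ∉ C → ∑ Φ ∈ cms (G ⧸ C) c, ∑ ψ ∈ Φ, D (a0 ψ Φ) = 0 := by
  intro C hC
  have h3 := T.average C hC
  rw [← sub_eq_zero, ← sum_sub_distrib] at h3
  rw [← h3]
  refine sum_congr rfl fun Φ hΦ => ?_
  rw [← sum_sub_distrib]
  exact sum_congr rfl fun ψ _ => h2 C ψ Φ (mem_cms.1 hΦ)

include hc hcc in
lemma cm_swap {C : Subgroup G} {Φ : Finset (G ⧸ C)} (hΦ : IsCMType c Φ) (y : G ⧸ C) :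
    IsCMType c (swap c y Φ) := hΦ.flip hcc y

include hc hcc in
theorem main1 :
    (∀ (C : Subgroup G) (ψ : G ⧸ C) (Φ : Finset (G ⧸ C)), IsCMType c Φ →
      T.ht C ψ Φ = T.Z (a0 ψ Φ)) ↔
    ∀ (C : Subgroup G) (x : G), Essential c C x →
      ∃ Φ : Finset (G ⧸ C), IsCMType c Φ ∧
        dif T ((1 : G) : G ⧸ C) Φ = dif T ((1 : G) : G ⧸ C) (swap c (x : G ⧸ C) Φ) := by
  constructor
  · intro h C x hx
    obtain ⟨Φ, hΦ, -⟩ := exists_cm hcc (smul_ne hc hcc hx.1.1) ((1 : G) : G ⧸ C)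
    refine ⟨Φ, hΦ, ?_⟩
    rw [dif, dif, h C _ Φ hΦ, h C _ _ (cm_swap hc hcc hΦ _), sub_self, sub_self]
  · intro h C ψ Φ hΦ
    obtain ⟨D, h1, h2⟩ := exists_D T
    have hJ := D_J hc hcc h1 (averages T h2)
    have hcyc : ∀ (C : Subgroup G) (x : G), IsCyclicCM c C x 1 → SS D c C x = 0 := by
      intro C x hx
      have hcom : ∀ u ∈ C, u * x = x * u := fun u hu => comm_closure hc (hx.2.1 hu)
      by_cases hxx : x * x ∈ C
      · exact SS_two hJ hcom hxx
      by_cases hneg : ConjOn C x (c * x)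
      · exact SS_neg hc hcc hneg
      by_cases hgen : ∀ j : ℕ, IsGen C x j → ConjOn C x (x ^ j)
      · exact SS_gen hJ hcom hgen
      · push Not at hgen
        have hx4 := deg_four hc hcc hx hxx
        have h3 : ∃ Φ : Finset (G ⧸ C), IsCMType c Φ ∧
            dif T ((1 : G) : G ⧸ C) Φ = dif T ((1 : G) : G ⧸ C) (swap c (x : G ⧸ C) Φ) := by
          by_cases hab : commutator G ≤ C
          · obtain ⟨Φ, hΦ, -⟩ := exists_cm hcc (smul_ne hc hcc hx.1) ((1 : G) : G ⧸ C)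
            refine ⟨Φ, hΦ, ?_⟩
            rw [dif, dif, T.abelian C hab _ Φ hΦ, T.abelian C hab _ _ (cm_swap hc hcc hΦ _),
              sub_self, sub_self]
          · exact h C x ⟨hx4, hab, hneg, hgen⟩
        obtain ⟨Φ, hΦ, h4⟩ := h3
        have h5 := D_first (D := D) hc hcc hΦ x
        rw [dif, dif] at h4
        rw [h2 C _ Φ hΦ, h2 C _ _ (cm_swap hc hcc hΦ _), h4, sub_self] at h5
        exact (smul_eq_zero.1 h5.symm).resolve_left (div_ne_zero (sg_ne _ _) card_ne)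
    have hS : ∀ x, SS D c ⊥ x = 0 := fun x => induct hc hcc (SS D c) (SS_c hc hcc)
      (SS_add hc hcc) hcyc (c_ne hΦ) x
    have h3 : D (a0 ψ Φ) = 0 := D_zero h1 hS (a0_conj ψ Φ) (a0_add hc ψ hΦ)
    rw [h2 C ψ Φ hΦ, sub_eq_zero] at h3
    exact h3

include hc hcc in
theorem main2 :
    (∀ (C : Subgroup G) (Φ : Finset (G ⧸ C)), IsCMType c Φ →
      ∑ ψ ∈ Φ, T.ht C ψ Φ = ∑ ψ ∈ Φ, T.Z (a0 ψ Φ)) ↔
    ∀ (C : Subgroup G) (x : G), EssentialSym c C x →
      ∃ Φ : Finset (G ⧸ C), IsCMType c Φ ∧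
        fal T Φ + fal T (swap c ((1 : G) : G ⧸ C) (swap c (x : G ⧸ C) Φ)) =
          fal T (swap c ((1 : G) : G ⧸ C) Φ) + fal T (swap c (x : G ⧸ C) Φ) := by
  constructor
  · intro h C x hx
    obtain ⟨Φ, hΦ, -⟩ := exists_cm hcc (smul_ne hc hcc hx.1.1) ((1 : G) : G ⧸ C)
    have h1 : ∀ Φ : Finset (G ⧸ C), IsCMType c Φ → fal T Φ = 0 := by
      intro Φ hΦ
      rw [fal, sum_sub_distrib, h C Φ hΦ, sub_self]
    refine ⟨Φ, hΦ, ?_⟩
    rw [h1 _ hΦ, h1 _ (cm_swap hc hcc hΦ _), h1 _ (cm_swap hc hcc hΦ _),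
      h1 _ (cm_swap hc hcc (cm_swap hc hcc hΦ _) _)]
  · intro h C Φ hΦ
    obtain ⟨D, h1, h2⟩ := exists_D T
    have hfal : ∀ {C : Subgroup G} {Φ : Finset (G ⧸ C)}, IsCMType c Φ →
        fal T Φ = ∑ ψ ∈ Φ, D (a0 ψ Φ) := by
      intro C Φ hΦ
      rw [fal]
      exact sum_congr rfl fun ψ _ => (h2 C ψ Φ hΦ).symm
    have hJ := D_J hc hcc h1 (averages T h2)
    have hcyc : ∀ (C : Subgroup G) (x : G), IsCyclicCM c C x 1 →
        SS D c C x + SS D c C x⁻¹ = 0 := by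
      intro C x hx
      have hcom : ∀ u ∈ C, u * x = x * u := fun u hu => comm_closure hc (hx.2.1 hu)
      by_cases hs : x ^ 4 ∈ C ∨ x ^ 6 ∈ C
      · exact SS_small hJ hcom hs
      by_cases hneg : ConjOn C x (c * x)
      · have h3 : ConjOn C x⁻¹ (c * x⁻¹) := by
          have h4 : ∀ u ∈ C, u * (c * x) = c * x * u := by
            intro u hu
            rw [← mul_assoc, hc u, mul_assoc, hcom u hu, mul_assoc]
          have h5 := conjOn_inv h4 hneg
          rwa [mul_inv_rev, c_inv hcc, hc] at h5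
        rw [SS_neg hc hcc hneg, SS_neg hc hcc h3, add_zero]
      by_cases hneg' : ConjOn C x (c * x⁻¹)
      · exact SS_neg_inv hc hcc hneg'
      by_cases hgen : ∀ j : ℕ, IsGen C x j → ConjOn C x (x ^ j) ∨ ConjOn C x⁻¹ (x ^ j)
      · exact SS_gen_sym hJ hcom hgen
      · push Not at hs hgen
        have hx8 := deg_eight hc hcc hx hs.1 hs.2
        have h3 : ∃ Φ : Finset (G ⧸ C), IsCMType c Φ ∧
            fal T Φ + fal T (swap c ((1 : G) : G ⧸ C) (swap c (x : G ⧸ C) Φ)) =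
              fal T (swap c ((1 : G) : G ⧸ C) Φ) + fal T (swap c (x : G ⧸ C) Φ) := by
          by_cases hab : commutator G ≤ C
          · obtain ⟨Φ, hΦ, -⟩ := exists_cm hcc (smul_ne hc hcc hx.1) ((1 : G) : G ⧸ C)
            have h1 : ∀ Φ : Finset (G ⧸ C), IsCMType c Φ → fal T Φ = 0 := by
              intro Φ hΦ
              rw [fal]
              refine sum_eq_zero fun ψ _ => ?_
              rw [T.abelian C hab _ Φ hΦ, sub_self]
            refine ⟨Φ, hΦ, ?_⟩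
            rw [h1 _ hΦ, h1 _ (cm_swap hc hcc hΦ _), h1 _ (cm_swap hc hcc hΦ _),
              h1 _ (cm_swap hc hcc (cm_swap hc hcc hΦ _) _)]
          · exact h C x ⟨hx8, hab, hneg, hneg', hgen⟩
        obtain ⟨Φ, hΦ, h4⟩ := h3
        have hx1 : x ∉ C := by
          intro h5
          have := hx8.2.2.2.2 1 one_pos (by rw [pow_one]; exact h5)
          omega
        have hx2 : c * x ∉ C := by
          intro h5
          have h6 := C.mul_mem h5 h5
          have h7 : c * x * (c * x) = x ^ 2 := by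
            have h8 : c * x * (c * x) = c * (x * c) * x := by group
            rw [h8, hc x, ← mul_assoc c c x, hcc, one_mul, pow_two]
          rw [h7] at h6
          have := hx8.2.2.2.2 2 two_pos h6
          omega
        have h5 := D_second (D := D) hc hcc hΦ hcom hx1 hx2
        rw [← hfal hΦ, ← hfal (cm_swap hc hcc hΦ _), ← hfal (cm_swap hc hcc hΦ _),
          ← hfal (cm_swap hc hcc (cm_swap hc hcc hΦ _) _)] at h5
        have h6 : fal T Φ - fal T (swap c ((1 : G) : G ⧸ C) Φ) - fal T (swap c (x : G ⧸ C) Φ) +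
            fal T (swap c ((1 : G) : G ⧸ C) (swap c (x : G ⧸ C) Φ)) = 0 := by linarith
        rw [h6] at h5
        refine (smul_eq_zero.1 h5.symm).resolve_left (div_ne_zero ?_ card_ne)
        exact mul_ne_zero two_ne_zero (mul_ne_zero (sg_ne _ _) (sg_ne _ _))
    have hS : ∀ x, SS D c ⊥ x + SS D c ⊥ x⁻¹ = 0 := by
      intro x
      refine induct hc hcc (fun C x => SS D c C x + SS D c C x⁻¹) ?_ ?_ hcyc (c_ne hΦ) x
      · intro C x
        have h3 : (c * x)⁻¹ = c * x⁻¹ := by rw [mul_inv_rev, c_inv hcc, hc]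
        simp only [h3, SS_c hc hcc]
        ring
      · intro C C1 C2 z x hz hcz hC1 hC2
        have h3 := SS_add (D := D) hc hcc C C1 C2 z x hz hcz hC1 hC2
        have h4 := SS_add (D := D) hc hcc C C1 C2 z x⁻¹ hz hcz hC1 hC2
        linarith
    have h3 : D (∑ ψ ∈ Φ, a0 ψ Φ) = 0 :=
      D_zero_sym h1 hS (sum_conj Φ) (sum_inv Φ) (sum_add hc hΦ)
    rw [map_sum, ← hfal hΦ, fal, sum_sub_distrib, sub_eq_zero] at h3
    exact h3

end Main

end Pool.Agent.R912.CZ
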