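import Pool.Agent.R912.CZ.Ind

/-!
# Colmez's product formula: small degrees and differences of CM types
-/

set_option autoImplicit false
set_option linter.unusedSectionVars false

open Finset Pool.Agent.R484.Colmez

namespace Pool.Agent.R912.CZ

open Classical

variable {G : Type} [Group G] [Fintype G] {c : G} {D : (G → ℚ) →ₗ[ℚ] ℝ}

lemma arith {d k e : ℕ} (he : e = 4 ∨ e = 6) (hd : d ∣ e) (hk : k.Coprime d) :
    (d : ℤ) ∣ (k : ℤ) - 1 ∨ (d : ℤ) ∣ (k : ℤ) + 1 := by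
  have he0 : 0 < e := by omega
  have hd0 : 0 < d := Nat.pos_of_dvd_of_pos hd he0
  have hr : Nat.gcd (k % d) d = 1 := by
    rw [← Nat.gcd_rec, Nat.gcd_comm]
    exact hk
  have hd6 : d = 1 ∨ d = 2 ∨ d = 3 ∨ d = 4 ∨ d = 6 := by
    rcases he with rfl | rfl
    · have := Nat.le_of_dvd he0 hd
      interval_cases d <;> omega
    · have := Nat.le_of_dvd he0 hd
      interval_cases d <;> omega
  have hlt : k % d < d := Nat.mod_lt _ hd0
  rcases hd6 with rfl | rfl | rfl | rfl | rfl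
  · left; simp
  · have h : k % 2 ≠ 0 := by
      intro h; rw [h] at hr; norm_num at hr
    omega
  · have h : k % 3 ≠ 0 := by
      intro h; rw [h] at hr; norm_num at hr
    omega
  · have h : k % 4 ≠ 0 := by
      intro h; rw [h] at hr; norm_num at hr
    have h' : k % 4 ≠ 2 := by
      intro h; rw [h] at hr; norm_num at hr
    omega
  · have h : k % 6 ≠ 0 := by
      intro h; rw [h] at hr; norm_num at hr
    have h' : k % 6 ≠ 2 := by
      intro h; rw [h] at hr; norm_num at hr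
    have h'' : k % 6 ≠ 3 := by
      intro h; rw [h] at hr; norm_num at hr
    have h''' : k % 6 ≠ 4 := by
      intro h; rw [h] at hr; norm_num at hr
    omega

omit [Fintype G] in
lemma zpow_mem_dvd {C : Subgroup G} {a : G} {d m : ℤ} (h : a ^ d ∈ C) (hm : d ∣ m) :
    a ^ m ∈ C := by
  obtain ⟨t, rfl⟩ := hm
  rw [zpow_mul]
  exact C.zpow_mem h t

lemma pow_case {C : Subgroup G} {a : G} (hcom : ∀ u ∈ C, u * a = a * u)
    (ha : a ^ 4 ∈ C ∨ a ^ 6 ∈ C) {u : G} (hu : u ∈ C) {k : ℕ}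
    (hk : k.Coprime (orderOf (a * u))) : a⁻¹ * (a * u) ^ k ∈ C ∨ a * (a * u) ^ k ∈ C := by
  have hau : Commute a u := (hcom u hu).symm
  obtain ⟨e, he, hae⟩ : ∃ e : ℕ, (e = 4 ∨ e = 6) ∧ a ^ e ∈ C := by
    rcases ha with h | h
    · exact ⟨4, Or.inl rfl, h⟩
    · exact ⟨6, Or.inr rfl, h⟩
  set N := orderOf (a * u) with hN
  have haN : a ^ N ∈ C := by
    have h1 : (a * u) ^ N = 1 := pow_orderOf_eq_one _
    rw [hau.mul_pow] at h1
    have h2 : a ^ N = (u ^ N)⁻¹ := eq_inv_of_mul_eq_one_left h1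
    rw [h2]
    exact C.inv_mem (C.pow_mem hu N)
  have had : a ^ ((Nat.gcd e N : ℕ) : ℤ) ∈ C := by
    rw [Nat.gcd_eq_gcd_ab, zpow_add]
    refine C.mul_mem (zpow_mem_dvd (d := (e : ℤ)) ?_ (dvd_mul_right _ _))
      (zpow_mem_dvd (d := (N : ℤ)) ?_ (dvd_mul_right _ _))
    · rw [zpow_natCast]; exact hae
    · rw [zpow_natCast]; exact haN
  have hkd : k.Coprime (Nat.gcd e N) := Nat.Coprime.coprime_dvd_right (Nat.gcd_dvd_right e N) hk
  rw [hau.mul_pow]
  rcases arith he (Nat.gcd_dvd_left e N) hkd with h | h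
  · left
    have h1 : a⁻¹ * (a ^ k * u ^ k) = a ^ ((k : ℤ) - 1) * u ^ k := by
      rw [← mul_assoc, sub_eq_add_neg, add_comm, zpow_add, zpow_neg_one, zpow_natCast]
    rw [h1]
    exact C.mul_mem (zpow_mem_dvd had h) (C.pow_mem hu k)
  · right
    have h1 : a * (a ^ k * u ^ k) = a ^ ((k : ℤ) + 1) * u ^ k := by
      rw [← mul_assoc, add_comm, zpow_add, zpow_one, zpow_natCast]
    rw [h1]
    exact C.mul_mem (zpow_mem_dvd had h) (C.pow_mem hu k)

lemma M_pow {C : Subgroup G} {x : G} (hcom : ∀ u ∈ C, u * x = x * u)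
    (hx : x ^ 4 ∈ C ∨ x ^ 6 ∈ C) {g h : G} (hgh : Subgroup.zpowers g = Subgroup.zpowers h)
    (hg : x⁻¹ * g ∈ C ∨ x * g ∈ C) : x⁻¹ * h ∈ C ∨ x * h ∈ C := by
  obtain ⟨k, hk, rfl⟩ := exists_pow hgh
  rcases hg with hg | hg
  · have h1 : g = x * (x⁻¹ * g) := by group
    rw [h1] at hk ⊢
    exact pow_case hcom hx hg hk
  · have h1 : g = x⁻¹ * (x * g) := by group
    have hcom' : ∀ u ∈ C, u * x⁻¹ = x⁻¹ * u := by
      intro u hu
      have : Commute u x := hcom u hu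
      exact this.inv_right.eq
    have hx' : x⁻¹ ^ 4 ∈ C ∨ x⁻¹ ^ 6 ∈ C := by
      rw [inv_pow, inv_pow, inv_mem_iff, inv_mem_iff]
      exact hx
    rw [h1] at hk ⊢
    have h2 := pow_case hcom' hx' hg hk
    rw [inv_inv] at h2
    exact h2.symm

/-- The rational function of the generators. -/
noncomputable def rho (C : Subgroup G) (x : G) : G → ℚ :=
  fun g => ∑ y : G, ind (x⁻¹ * (y⁻¹ * g * y) ∈ C ∨ x * (y⁻¹ * g * y) ∈ C)

lemma zpowers_conj {g h : G} (hgh : Subgroup.zpowers g = Subgroup.zpowers h) (y : G) :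
    Subgroup.zpowers (y⁻¹ * g * y) = Subgroup.zpowers (y⁻¹ * h * y) := by
  have key : ∀ g h : G, h ∈ Subgroup.zpowers g →
      y⁻¹ * h * y ∈ Subgroup.zpowers (y⁻¹ * g * y) := by
    rintro g h ⟨k, rfl⟩
    refine ⟨k, ?_⟩
    have h1 : y⁻¹ * g * y = y⁻¹ * g * y⁻¹⁻¹ := by rw [inv_inv]
    change (y⁻¹ * g * y) ^ k = y⁻¹ * g ^ k * y
    rw [h1, conj_zpow, inv_inv]
  apply le_antisymm
  · rw [Subgroup.zpowers_le]
    apply key
    rw [← hgh]
    exact Subgroup.mem_zpowers g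
  · rw [Subgroup.zpowers_le]
    apply key
    rw [hgh]
    exact Subgroup.mem_zpowers h

lemma D_rho (hJ : ∀ C : Subgroup G, D (odd c (J C)) = 0) {C : Subgroup G} {x : G}
    (hcom : ∀ u ∈ C, u * x = x * u) (hx : x ^ 4 ∈ C ∨ x ^ 6 ∈ C) : D (odd c (rho C x)) = 0 := by
  refine D_odd_rational hJ ?_ ?_
  · intro g v
    rw [rho, rho]
    refine Fintype.sum_equiv (Equiv.mulLeft v⁻¹) _ _ fun h => ?_
    simp only [Equiv.coe_mulLeft, mul_inv_rev, inv_inv, mul_assoc]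
  · intro g h hgh
    rw [rho, rho]
    refine sum_congr rfl fun y _ => ind_congr ⟨?_, ?_⟩
    · exact M_pow hcom hx (zpowers_conj hgh y)
    · exact M_pow hcom hx (zpowers_conj hgh.symm y)

lemma B_rho (C : Subgroup G) (x : G) :
    B C x + B C x⁻¹ = (if x * x ∈ C then (2 : ℚ) else 1) • rho C x := by
  ext g
  rw [Pi.add_apply, Pi.smul_apply, smul_eq_mul, B, B, rho, ← sum_add_distrib, mul_sum]
  refine sum_congr rfl fun y _ => ?_
  rw [inv_inv]
  generalize y⁻¹ * g * y = w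
  have h0 : x * w = (x * x) * (x⁻¹ * w) := by group
  split_ifs with h
  · have h1 : x * w ∈ C ↔ x⁻¹ * w ∈ C := by
      rw [h0, Subgroup.mul_mem_cancel_left _ h]
    by_cases h2 : x⁻¹ * w ∈ C
    · rw [ind_pos h2, ind_pos (h1.2 h2), ind_pos (Or.inl h2)]
      norm_num
    · rw [ind_neg h2, ind_neg (fun h3 => h2 (h1.1 h3)), ind_neg (fun h3 => h3.elim h2
        (fun h4 => h2 (h1.1 h4)))]
      norm_num
  · rw [one_mul]
    by_cases h2 : x⁻¹ * w ∈ C
    · have h3 : x * w ∉ C := by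
        rw [h0, Subgroup.mul_mem_cancel_right _ h2]
        exact h
      rw [ind_pos h2, ind_neg h3, ind_pos (Or.inl h2), add_zero]
    · by_cases h3 : x * w ∈ C
      · rw [ind_neg h2, ind_pos h3, ind_pos (Or.inr h3), zero_add]
      · rw [ind_neg h2, ind_neg h3, ind_neg (fun h4 => h4.elim h2 h3), zero_add]

/-- Degrees 2, 4 and 6. -/
lemma SS_small (hJ : ∀ C : Subgroup G, D (odd c (J C)) = 0) {C : Subgroup G} {x : G}
    (hcom : ∀ u ∈ C, u * x = x * u) (hx : x ^ 4 ∈ C ∨ x ^ 6 ∈ C) :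
    SS D c C x + SS D c C x⁻¹ = 0 := by
  rw [SS, SS, ← map_add, ← map_add, B_rho, map_smul, map_smul, D_rho hJ hcom hx, smul_zero]

lemma B_inv {C : Subgroup G} {x : G} (hx : x * x ∈ C) : B C x⁻¹ = B C x := by
  ext g
  rw [B, B]
  refine sum_congr rfl fun y _ => ind_congr ?_
  rw [inv_inv]
  generalize y⁻¹ * g * y = w
  have h0 : x * w = (x * x) * (x⁻¹ * w) := by group
  rw [h0, Subgroup.mul_mem_cancel_left _ hx]

lemma SS_two (hJ : ∀ C : Subgroup G, D (odd c (J C)) = 0) {C : Subgroup G} {x : G}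
    (hcom : ∀ u ∈ C, u * x = x * u) (hx : x * x ∈ C) : SS D c C x = 0 := by
  have h4 : x ^ 4 ∈ C := by
    have h5 : x ^ 4 = (x * x) * (x * x) := by
      rw [← pow_two, ← pow_two, ← pow_mul]
    rw [h5]
    exact C.mul_mem hx hx
  have h1 := SS_small hJ hcom (Or.inl h4)
  rw [SS, SS, B_inv hx] at h1
  rw [SS]
  linarith

omit [Fintype G] in
lemma odd_contra (hc : ∀ g : G, g * c = c * g) (hcc : c * c = 1) {C : Subgroup G} {x : G}
    (hC : c ∉ C) {k : ℕ} (hk : x ^ k * c ∈ C) {n : ℕ} (hn : Odd n) (hx : x ^ n ∈ C) : False := by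
  apply hC
  have h1 : Commute (x ^ k) c := hc _
  have h2 := C.pow_mem hk n
  have h3 : c ^ n = c := by
    obtain ⟨m, rfl⟩ := hn
    rw [pow_succ, pow_mul, pow_two, hcc, one_pow, one_mul]
  rw [h1.mul_pow, h3, ← pow_mul, mul_comm, pow_mul] at h2
  rwa [Subgroup.mul_mem_cancel_left _ (C.pow_mem hx k)] at h2

lemma deg_four (hc : ∀ g : G, g * c = c * g) (hcc : c * c = 1) {C : Subgroup G} {x : G}
    (h : IsCyclicCM c C x 1) (hx : x * x ∉ C) : IsCyclicCM c C x 4 := by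
  obtain ⟨h1, h2, h2', ⟨k, hk⟩, h3⟩ := h
  refine ⟨h1, h2, h2', ⟨k, hk⟩, fun n hn hxn => ?_⟩
  by_contra h4
  have h5 : n = 1 ∨ n = 2 ∨ n = 3 := by omega
  rcases h5 with rfl | rfl | rfl
  · exact odd_contra hc hcc h1 hk (by decide) hxn
  · rw [pow_two] at hxn
    exact hx hxn
  · exact odd_contra hc hcc h1 hk (by decide) hxn

lemma deg_eight (hc : ∀ g : G, g * c = c * g) (hcc : c * c = 1) {C : Subgroup G} {x : G}
    (h : IsCyclicCM c C x 1) (hx4 : x ^ 4 ∉ C) (hx6 : x ^ 6 ∉ C) : IsCyclicCM c C x 8 := by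
  obtain ⟨h1, h2, h2', ⟨k, hk⟩, h3⟩ := h
  refine ⟨h1, h2, h2', ⟨k, hk⟩, fun n hn hxn => ?_⟩
  by_contra h4
  have h5 : Odd n ∨ n = 2 ∨ n = 4 ∨ n = 6 := by
    rw [Nat.odd_iff]
    omega
  rcases h5 with h5 | rfl | rfl | rfl
  · exact odd_contra hc hcc h1 hk h5 hxn
  · apply hx4
    have h6 : x ^ 4 = x ^ 2 * x ^ 2 := by group
    rw [h6]
    exact C.mul_mem hxn hxn
  · exact hx4 hxn
  · exact hx6 hxn

/-! ### Differences of CM types -/

section Diff

variable {X : Type} [MulAction G X]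

/-- The difference of the indicators of `y` and of `c y`. -/
noncomputable def eta (c : G) (y ψ : X) : ℚ := ind (ψ = y) - ind (ψ = c • y)

lemma ind_flip {Φ : Finset X} (hΦ : IsCMType c Φ) (y ψ : X) :
    ind (ψ ∈ R484.Colmez.flip c y Φ) = ind (ψ ∈ Φ) - sg y Φ * eta c y ψ := by
  have h0 := hΦ.free y
  have hy := hΦ y
  rw [eta, sg, ind_congr mem_flip]
  by_cases h1 : ψ = y
  · subst h1
    rw [ind_pos rfl, ind_neg (Ne.symm h0)]
    by_cases h2 : ψ ∈ Φ
    · rw [ind_neg (by simp [h2]), ind_pos h2, if_pos h2]; norm_num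
    · rw [ind_pos (by simp [h2]), ind_neg h2, if_neg h2]; norm_num
  · by_cases h3 : ψ = c • y
    · subst h3
      rw [ind_pos rfl, ind_neg h0]
      by_cases h2 : y ∈ Φ
      · have h4 := hy.1 h2
        rw [ind_pos (by simp [h4]), ind_neg h4, if_pos h2]; norm_num
      · have h4 : c • y ∈ Φ := by
          by_contra h5
          exact h2 (hy.2 h5)
        rw [ind_neg (by simp [h4]), ind_pos h4, if_neg h2]; norm_num
    · rw [ind_neg h1, ind_neg h3, if_neg (by tauto)]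
      ring

lemma eta_c (hcc : c * c = 1) (y ψ : X) : eta c y (c • ψ) = -eta c y ψ := by
  rw [eta, eta]
  have h1 : ind (c • ψ = c • y) = ind (ψ = y) := ind_congr (smul_left_cancel_iff c)
  have h2 : ind (c • ψ = y) = ind (ψ = c • y) := by
    apply ind_congr
    constructor
    · rintro rfl
      rw [← mul_smul, hcc, one_smul]
    · rintro rfl
      rw [← mul_smul, hcc, one_smul]
  rw [h1, h2]
  ring

lemma sum_eta [Fintype X] (y : X) (F : X → ℚ) :
    ∑ ψ, eta c y ψ * F ψ = F y - F (c • y) := by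
  have h1 : ∀ z : X, ∑ ψ, ind (ψ = z) * F ψ = F z := by
    intro z
    rw [sum_eq_single z, ind_pos rfl, one_mul]
    · intro w _ hw
      rw [ind_neg hw, zero_mul]
    · exact fun h => absurd (mem_univ _) h
  simp only [eta, sub_mul]
  rw [sum_sub_distrib, h1, h1]

lemma sg_flip {Φ : Finset X} {y z : X} (h1 : y ≠ z) (h2 : y ≠ c • z) :
    sg y (R484.Colmez.flip c z Φ) = sg y Φ := by
  rw [sg, sg]
  have h3 : y ∈ R484.Colmez.flip c z Φ ↔ y ∈ Φ := by
    rw [mem_flip, if_neg (by tauto)]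
  simp only [h3]

lemma A_apply [Fintype X] (Φ : Finset X) (g : G) :
    (∑ ψ ∈ Φ, a0 ψ Φ : G → ℚ) g = (∑ h : G, ∑ ψ : X, ind (ψ ∈ Φ) *
      ind ((h⁻¹ * g * h) • ψ ∈ Φ)) / Fintype.card G := by
  rw [Finset.sum_apply, ← sum_ind_mul, sum_comm, sum_div]
  refine sum_congr rfl fun ψ _ => ?_
  rw [a0_apply, ← mul_sum, mul_div_assoc]

/-- The second difference. -/
lemma second [Fintype X] (hc : ∀ g : G, g * c = c * g) (hcc : c * c = 1) {Φ : Finset X}
    (hΦ : IsCMType c Φ) {y z : X} (h1 : y ≠ z) (h2 : y ≠ c • z) (g : G) :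
    (∑ ψ ∈ Φ, a0 ψ Φ : G → ℚ) g -
      (∑ ψ ∈ R484.Colmez.flip c y Φ, a0 ψ (R484.Colmez.flip c y Φ) : G → ℚ) g -
      (∑ ψ ∈ R484.Colmez.flip c z Φ, a0 ψ (R484.Colmez.flip c z Φ) : G → ℚ) g +
      (∑ ψ ∈ R484.Colmez.flip c y (R484.Colmez.flip c z Φ), a0 ψ (R484.Colmez.flip c y (R484.Colmez.flip c z Φ)) :
        G → ℚ) g =
    2 * (sg y Φ * sg z Φ) / Fintype.card G *
      (∑ h : G, eta c z ((h⁻¹ * g * h) • y) + ∑ h : G, eta c y ((h⁻¹ * g * h) • z)) := by
  have hz := hΦ.flip hcc z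
  rw [A_apply, A_apply, A_apply, A_apply, ← sub_div, ← sub_div, ← add_div,
    ← sum_sub_distrib, ← sum_sub_distrib, ← sum_add_distrib, div_mul_eq_mul_div,
    ← sum_add_distrib, mul_sum]
  congr 1
  refine sum_congr rfl fun h _ => ?_
  rw [← sum_sub_distrib, ← sum_sub_distrib, ← sum_add_distrib]
  set k := h⁻¹ * g * h with hk
  have h3 : ∀ ψ : X, ind (ψ ∈ Φ) * ind (k • ψ ∈ Φ) -
      ind (ψ ∈ R484.Colmez.flip c y Φ) * ind (k • ψ ∈ R484.Colmez.flip c y Φ) -
      ind (ψ ∈ R484.Colmez.flip c z Φ) * ind (k • ψ ∈ R484.Colmez.flip c z Φ) +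
      ind (ψ ∈ R484.Colmez.flip c y (R484.Colmez.flip c z Φ)) *
        ind (k • ψ ∈ R484.Colmez.flip c y (R484.Colmez.flip c z Φ)) =
      sg y Φ * sg z Φ * (eta c y ψ * eta c z (k • ψ) + eta c z ψ * eta c y (k • ψ)) := by
    intro ψ
    rw [ind_flip hz, ind_flip hz, ind_flip hΦ, ind_flip hΦ, ind_flip hΦ, ind_flip hΦ,
      sg_flip h1 h2]
    ring
  rw [sum_congr rfl fun ψ _ => h3 ψ, ← mul_sum, sum_add_distrib, sum_eta, sum_eta]
  have h4 : ∀ w : X, k • c • w = c • k • w := by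
    intro w
    rw [← mul_smul, ← mul_smul, hc]
  rw [h4, h4, eta_c hcc, eta_c hcc]
  ring

end Diff

section Quot

variable (C : Subgroup G)

lemma quot_eta (x k : G) : eta c (x : G ⧸ C) (k • ((1 : G) : G ⧸ C)) =
    ind (x⁻¹ * k ∈ C) - ind ((c * x)⁻¹ * k ∈ C) := by
  rw [eta]
  congr 1
  · apply ind_congr
    rw [MulAction.Quotient.smul_mk, smul_eq_mul, mul_one, eq_comm, QuotientGroup.eq]
  · apply ind_congr
    rw [MulAction.Quotient.smul_mk, MulAction.Quotient.smul_mk, smul_eq_mul, mul_one, eq_comm,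
      QuotientGroup.eq, smul_eq_mul]

lemma sum_quot_eta (hc : ∀ g : G, g * c = c * g) (hcc : c * c = 1) (x g : G) :
    ∑ h : G, eta c (x : G ⧸ C) ((h⁻¹ * g * h) • ((1 : G) : G ⧸ C)) = odd c (B C x) g := by
  rw [odd_apply, ← B_c hc hcc, B, B, ← sum_sub_distrib]
  exact sum_congr rfl fun h _ => quot_eta C x _

lemma sum_quot_eta' (hc : ∀ g : G, g * c = c * g) (hcc : c * c = 1) {x : G}
    (hcom : ∀ u ∈ C, u * x = x * u) (g : G) :
    ∑ h : G, eta c ((1 : G) : G ⧸ C) ((h⁻¹ * g * h) • (x : G ⧸ C)) = odd c (B C x⁻¹) g := by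
  have key : ∀ w : G, w * x ∈ C ↔ x⁻¹⁻¹ * w ∈ C := by
    intro w
    rw [inv_inv]
    constructor
    · intro h
      have h1 := hcom _ h
      have h2 : x * w = w * x := by
        have h3 : x * (w * x) * x⁻¹ = w * x := by rw [← h1]; group
        rw [← h3]
        group
      rw [h2]
      exact h
    · intro h
      have h1 := hcom _ h
      have h2 : w * x = x * w := by
        have h3 : x⁻¹ * ((x * w) * x) = x * w := by rw [h1]; group
        rw [← h3]
        group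
      rw [h2]
      exact h
  rw [odd_apply, B, B, ← sum_sub_distrib]
  refine sum_congr rfl fun h _ => ?_
  rw [eta]
  congr 1
  · apply ind_congr
    rw [← key, MulAction.Quotient.smul_mk, smul_eq_mul, eq_comm, QuotientGroup.eq, inv_one, one_mul]
  · apply ind_congr
    rw [← key, MulAction.Quotient.smul_mk, MulAction.Quotient.smul_mk, smul_eq_mul, smul_eq_mul,
      mul_one, eq_comm, QuotientGroup.eq, c_inv hcc]
    have h1 : c * (h⁻¹ * g * h * x) = h⁻¹ * (c * g) * h * x := by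
      have h2 : h⁻¹ * (c * g) * h = c * (h⁻¹ * g * h) := by
        rw [← mul_assoc, hc h⁻¹]
        simp only [mul_assoc]
      rw [h2, mul_assoc c]
    rw [h1]

/-- The first difference. -/
lemma first (hc : ∀ g : G, g * c = c * g) (hcc : c * c = 1) {Φ : Finset (G ⧸ C)}
    (hΦ : IsCMType c Φ) (x g : G) :
    a0 ((1 : G) : G ⧸ C) Φ g - a0 ((1 : G) : G ⧸ C) (R484.Colmez.flip c (x : G ⧸ C) Φ) g =
      sg (x : G ⧸ C) Φ / Fintype.card G * odd c (B C x) g := by
  rw [a0_apply, a0_apply, ← sub_div, ← sum_sub_distrib, ← sum_quot_eta C hc hcc,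
    div_mul_eq_mul_div, mul_sum]
  congr 1
  refine sum_congr rfl fun h _ => ?_
  rw [ind_flip hΦ]
  ring

end Quot

end Pool.Agent.R912.CZ
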